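import Pool.Agent.Helper57.CH.Frames

set_option autoImplicit false

/-!
An integer which is not normal has a block that is too frequent along an arithmetic progression of
positions.
-/

namespace Pool.Agent.Helper66.CH

open Finset
open Pool.Agent.Helper57.CH

/-- the digit block as a floor -/
theorem floor_blk {b l J : ℕ} (hb : 2 ≤ b) (hJ : l ≤ J) (d : ℤ) (u : ℕ) :
    Nat.floor (((b ^ l : ℕ) : ℝ) * Int.fract ((d : ℝ) / (b : ℝ) ^ J)) = u ↔
      blk b l (J - l) d = u := by
  have hb0 : 0 < b := by omega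
  set a : ℕ := b ^ (J - l) with ha
  set c : ℕ := b ^ l with hc
  have ha0 : 0 < a := Nat.pow_pos hb0
  have hc0 : 0 < c := Nat.pow_pos hb0
  have hac : b ^ J = a * c := by
    rw [ha, hc, ← pow_add]
    congr 1
    omega
  have hD0 : (0 : ℤ) < ((a * c : ℕ) : ℤ) := by exact_mod_cast Nat.mul_pos ha0 hc0
  set ρ : ℤ := d % ((a * c : ℕ) : ℤ) with hρ
  have hρ0 : 0 ≤ ρ := Int.emod_nonneg _ hD0.ne'
  have hρ1 : ρ < ((a * c : ℕ) : ℤ) := Int.emod_lt_of_pos _ hD0
  obtain ⟨R, hR⟩ := Int.eq_ofNat_of_zero_le hρ0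
  have hR1 : R < a * c := by
    have := hρ1
    rw [hR] at this
    exact_mod_cast this
  have h1 : Int.fract ((d : ℝ) / (b : ℝ) ^ J) = (R : ℝ) / ((a * c : ℕ) : ℝ) := by
    have h2 : (b : ℝ) ^ J = ((a * c : ℕ) : ℝ) := by
      rw [← hac]
      push_cast
      rfl
    rw [h2, Int.fract_div_intCast_eq_div_intCast_mod, ← hρ, hR]
    push_cast
    rfl
  have h3 : ((c : ℕ) : ℝ) * Int.fract ((d : ℝ) / (b : ℝ) ^ J) = (R : ℝ) / (a : ℝ) := by
    rw [h1]
    have h4 : (a : ℝ) ≠ 0 := by exact_mod_cast ha0.ne'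
    have h5 : (c : ℝ) ≠ 0 := by exact_mod_cast hc0.ne'
    push_cast
    field_simp
  have h6 : Nat.floor (((c : ℕ) : ℝ) * Int.fract ((d : ℝ) / (b : ℝ) ^ J)) = R / a := by
    rw [h3]
    exact Nat.floor_div_eq_div R a
  have h7 : blk b l (J - l) d = ((R / a : ℕ) : ℤ) := by
    have h8 : d = (a : ℤ) * ((c : ℤ) * (d / ((a * c : ℕ) : ℤ))) + R := by
      have h9 := Int.mul_ediv_add_emod d ((a * c : ℕ) : ℤ)
      rw [← hρ, hR] at h9
      push_cast at h9 ⊢
      linarith [h9]
    have h10 : blk b l (J - l) d = d / (a : ℤ) % (c : ℤ) := by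
      unfold blk
      rw [ha, hc]
      push_cast
      rfl
    have h11 : d / (a : ℤ) = (c : ℤ) * (d / ((a * c : ℕ) : ℤ)) + ((R / a : ℕ) : ℤ) := by
      have ha' : (a : ℤ) ≠ 0 := by exact_mod_cast ha0.ne'
      have h12 : d / (a : ℤ) =
          ((a : ℤ) * ((c : ℤ) * (d / ((a * c : ℕ) : ℤ))) + R) / (a : ℤ) := by
        rw [← h8]
      rw [h12, Int.add_comm, Int.add_mul_ediv_left _ _ ha', Int.add_comm]
      push_cast
      rfl
    rw [h10, h11, Int.add_comm, Int.add_mul_emod_self_left]
    have h13 : R / a < c := by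
      rw [Nat.div_lt_iff_lt_mul ha0]
      rw [Nat.mul_comm]
      exact hR1
    exact Int.emod_eq_of_lt (by positivity) (by exact_mod_cast h13)
  rw [h6, h7]
  exact Nat.cast_inj.symm

theorem stDg : StDg := by
  intro b l q K ε hb hl hlq hε hK d hN
  have hb0 : 0 < b := by omega
  have hq0 : 0 < q := by omega
  set c : ℕ := b ^ l with hc
  have hc2 : 2 ≤ c := by
    calc 2 ≤ b := hb
      _ = b ^ 1 := (pow_one b).symm
      _ ≤ b ^ l := Nat.pow_le_pow_right hb0 hl
  have hcR : ((b : ℝ) ^ l) = (c : ℝ) := by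
    rw [hc]
    push_cast
    rfl
  have hc0 : (0 : ℝ) < (c : ℝ) := by exact_mod_cast (by omega : 0 < c)
  have hc1 : (1 : ℝ) ≤ (c : ℝ) := by exact_mod_cast (by omega : 1 ≤ c)
  -- the number of occurrences
  let N : ℕ → ℕ := fun u => #{i ∈ range K | blk b l i d = u}
  have hblk : ∀ i, 0 ≤ blk b l i d ∧ blk b l i d < c := by
    intro i
    have h0 : (0 : ℤ) < (b : ℤ) ^ l := by positivity
    refine ⟨Int.emod_nonneg _ h0.ne', ?_⟩
    have := Int.emod_lt_of_pos (d / (b : ℤ) ^ i) h0
    rw [hc]
    push_cast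
    exact this
  have hsum : ∑ u ∈ range c, N u = K := by
    have h1 : #(range K) = ∑ u ∈ range c, #{i ∈ range K | (blk b l i d).toNat = u} := by
      refine Finset.card_eq_sum_card_fiberwise ?_
      intro i _
      rw [Finset.mem_coe, Finset.mem_range]
      show (blk b l i d).toNat < c
      have := hblk i
      omega
    rw [Finset.card_range] at h1
    rw [h1]
    refine Finset.sum_congr rfl fun u _ => ?_
    refine congrArg Finset.card (Finset.filter_congr fun i _ => ?_)
    have := hblk i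
    omega
  have hsumR : ∑ u ∈ range c, (N u : ℝ) = K := by
    exact_mod_cast hsum
  -- a block that is too frequent
  obtain ⟨u, hu, hNu⟩ : ∃ u < c, (1 + ε) * K / c ≤ (N u : ℝ) := by
    have hN' : ∃ u : ℕ, u < c ∧ ε * K < |(N u : ℝ) - K / (c : ℝ)| := by
      by_contra hno
      push Not at hno
      apply hN
      intro u hu
      have := hno u hu
      rw [hcR]
      exact this
    obtain ⟨u0, hu0, h0⟩ := hN'
    have hK0 : (0 : ℝ) ≤ K := Nat.cast_nonneg K
    rcases lt_abs.1 h0 with h | h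
    · refine ⟨u0, hu0, ?_⟩
      have h2 : ε * K / c ≤ ε * K := div_le_self (by positivity) hc1
      have h3 : (1 + ε) * K / c = K / c + ε * K / c := by ring
      rw [h3]
      linarith
    · by_contra hno
      push Not at hno
      have h2 : ∑ u ∈ (range c).erase u0, (N u : ℝ) ≤
          ∑ u ∈ (range c).erase u0, (1 + ε) * K / c := by
        refine Finset.sum_le_sum fun u hu => ?_
        exact (hno u (Finset.mem_range.1 (Finset.mem_of_mem_erase hu))).le
      rw [Finset.sum_const, Finset.card_erase_of_mem (Finset.mem_range.2 hu0),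
        Finset.card_range, nsmul_eq_mul, Nat.cast_sub (by omega)] at h2
      have h3 := Finset.add_sum_erase (range c) (fun u => (N u : ℝ)) (Finset.mem_range.2 hu0)
      rw [hsumR] at h3
      have h4 : ((c : ℝ) - (1 : ℕ)) * ((1 + ε) * K / c) = (1 + ε) * K - (1 + ε) * K / c := by
        push_cast
        field_simp
      rw [h4] at h2
      have h5 : (1 + ε) * K / c = K / c + ε * K / c := by ring
      rw [h5] at h2
      have h6 : 0 ≤ ε * K / c := by positivity
      nlinarith [h2, h3, h, h6]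
  refine ⟨u, hu, ?_⟩
  by_contra hno
  push Not at hno
  -- each sum is a cardinality
  have hM : ∀ r, (∑ B : Fin ((K - r) / q), if Nat.floor (((c : ℕ) : ℝ) *
      Int.fract ((d : ℝ) / (b : ℝ) ^ (r + (B + 1) * q))) = u then (1 : ℝ) else 0) =
      (#{B ∈ range ((K - r) / q) | blk b l (r + (B + 1) * q - l) d = u} : ℝ) := by
    intro r
    rw [Fin.sum_univ_eq_sum_range (fun B => if Nat.floor (((c : ℕ) : ℝ) *
      Int.fract ((d : ℝ) / (b : ℝ) ^ (r + (B + 1) * q))) = u then (1 : ℝ) else 0),
      Finset.sum_boole]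
    congr 2
    refine Finset.filter_congr fun B _ => ?_
    have hJ : l ≤ r + (B + 1) * q := by nlinarith
    exact floor_blk hb hJ d u
  have hup : ∀ r ∈ range q,
      (#{B ∈ range ((K - r) / q) | blk b l (r + (B + 1) * q - l) d = u} : ℝ) <
      (1 + ε / 2) / c * ((K / q : ℕ) : ℝ) := by
    intro r hr
    have h1 := hno r (Finset.mem_range.1 hr)
    rw [hM r, hcR] at h1
    refine h1.trans_le ?_
    have h2 : (((K - r) / q : ℕ) : ℝ) ≤ ((K / q : ℕ) : ℝ) := by
      exact_mod_cast Nat.div_le_div_right (Nat.sub_le K r)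
    have h3 : 0 ≤ (1 + ε / 2) / (c : ℝ) := by positivity
    exact mul_le_mul_of_nonneg_left h2 h3
  -- the total
  have htot : N u ≤ (∑ r ∈ range q,
      #{B ∈ range ((K - r) / q) | blk b l (r + (B + 1) * q - l) d = u}) + 2 * q := by
    let T : Finset ℕ := {i ∈ range K | blk b l i d = u}
    let T1 : Finset ℕ := {i ∈ T | q ≤ i + l ∧ i + l ≤ K}
    let T2 : Finset ℕ := {i ∈ T | ¬ (q ≤ i + l ∧ i + l ≤ K)}
    have h1 : #T = #T1 + #T2 := (Finset.card_filter_add_card_filter_not _).symm
    have h2 : #T2 ≤ 2 * q := by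
      have hs : T2 ⊆ range q ∪ Finset.Ico (K - l) K := by
        intro i hi
        rw [Finset.mem_filter, Finset.mem_filter, Finset.mem_range] at hi
        rw [Finset.mem_union, Finset.mem_range, Finset.mem_Ico]
        omega
      refine (Finset.card_le_card hs).trans ((Finset.card_union_le _ _).trans ?_)
      rw [Finset.card_range, Nat.card_Ico]
      omega
    have h3 : #T1 ≤ #((range q).sigma fun r =>
        {B ∈ range ((K - r) / q) | blk b l (r + (B + 1) * q - l) d = u}) := by
      refine Finset.card_le_card_of_injOn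
        (fun i => (⟨(i + l) % q, (i + l) / q - 1⟩ : Σ _ : ℕ, ℕ)) ?_ ?_
      · intro i hi
        rw [Finset.mem_coe, Finset.mem_filter, Finset.mem_filter, Finset.mem_range] at hi
        obtain ⟨⟨hiK, hbi⟩, hqi, hiK'⟩ := hi
        have hdm := Nat.div_add_mod (i + l) q
        have hd1 : 1 ≤ (i + l) / q := (Nat.one_le_div_iff hq0).2 hqi
        have hJ : (i + l) % q + ((i + l) / q - 1 + 1) * q = i + l := by
          rw [Nat.sub_add_cancel hd1, Nat.mul_comm]
          omega
        rw [Finset.mem_coe, Finset.mem_sigma, Finset.mem_filter, Finset.mem_range,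
          Finset.mem_range]
        refine ⟨Nat.mod_lt _ hq0, ?_, ?_⟩
        · show (i + l) / q - 1 < (K - (i + l) % q) / q
          have h4 : (i + l) / q ≤ (K - (i + l) % q) / q := by
            rw [Nat.le_div_iff_mul_le hq0]
            rw [Nat.mul_comm]
            omega
          omega
        · show blk b l ((i + l) % q + ((i + l) / q - 1 + 1) * q - l) d = u
          rw [hJ, Nat.add_sub_cancel]
          exact hbi
      · intro i hi j hj hij
        rw [Finset.mem_coe, Finset.mem_filter, Finset.mem_filter, Finset.mem_range] at hi hj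
        have e1 : (i + l) % q = (j + l) % q := congrArg Sigma.fst hij
        have e2 : (i + l) / q - 1 = (j + l) / q - 1 := by
          have := congrArg (fun p : (Σ _ : ℕ, ℕ) => p.2) hij
          exact this
        have hd1 : 1 ≤ (i + l) / q := (Nat.one_le_div_iff hq0).2 hi.2.1
        have hd2 : 1 ≤ (j + l) / q := (Nat.one_le_div_iff hq0).2 hj.2.1
        have e3 : (i + l) / q = (j + l) / q := by omega
        have hi' := Nat.div_add_mod (i + l) q
        have hj' := Nat.div_add_mod (j + l) q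
        rw [e1, e3] at hi'
        omega
    rw [Finset.card_sigma] at h3
    show #T ≤ _
    omega
  have hfin : (N u : ℝ) < (1 + ε / 2) * K / c + 2 * q := by
    have h1 : (N u : ℝ) ≤ (∑ r ∈ range q,
      (#{B ∈ range ((K - r) / q) | blk b l (r + (B + 1) * q - l) d = u} : ℝ)) + 2 * q := by
      exact_mod_cast htot
    have h2 := Finset.sum_lt_sum_of_nonempty (Finset.nonempty_range_iff.2 hq0.ne') hup
    rw [Finset.sum_const, Finset.card_range, nsmul_eq_mul] at h2
    have h3 : (q : ℝ) * ((K / q : ℕ) : ℝ) ≤ K := by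
      exact_mod_cast Nat.mul_div_le K q
    have h4 : 0 ≤ (1 + ε / 2) / (c : ℝ) := by positivity
    have h5 : (q : ℝ) * ((1 + ε / 2) / c * ((K / q : ℕ) : ℝ)) ≤ (1 + ε / 2) / c * K := by
      calc (q : ℝ) * ((1 + ε / 2) / c * ((K / q : ℕ) : ℝ))
          = (1 + ε / 2) / c * ((q : ℝ) * ((K / q : ℕ) : ℝ)) := by ring
        _ ≤ (1 + ε / 2) / c * K := mul_le_mul_of_nonneg_left h3 h4
    have h6 : (1 + ε / 2) / c * K = (1 + ε / 2) * K / c := by ring
    linarith
  have h7 : 2 * (q : ℝ) ≤ ε * K / c / 2 := by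
    rw [hcR] at hK
    rw [le_div_iff₀ (by norm_num), le_div_iff₀ hc0]
    linarith
  have h8 : (1 + ε) * K / c = (1 + ε / 2) * K / c + ε * K / c / 2 := by ring
  rw [h8] at hNu
  linarith

end Pool.Agent.Helper66.CH
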