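import Pool.Agent.Helper57.CH.Frames3
import Pool.Agent.Helper66.CH.Dg

set_option autoImplicit false

/-!
Three integers which are not jointly normal have a triple of blocks that is too frequent along an
arithmetic progression of positions.
-/

namespace Pool.Agent.Helper66.CH

open Finset
open Pool.Agent.Helper57.CH

/-- pigeonhole: if one class is too frequent or too rare, some class is too frequent -/
theorem exists_frequent {ι : Type} [DecidableEq ι] (T : Finset ι) (X : ℕ → ι)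
    (hX : ∀ i, X i ∈ T) {n K : ℕ} (hT : #T = n) (hn : 2 ≤ n) {ε : ℝ} (hε : 0 < ε)
    {t₀ : ι} (ht₀ : t₀ ∈ T) (h0 : ε * K < |(#{i ∈ range K | X i = t₀} : ℝ) - K / (n : ℝ)|) :
    ∃ t ∈ T, (1 + ε) * K / n ≤ (#{i ∈ range K | X i = t} : ℝ) := by
  have hn0 : (0 : ℝ) < n := by exact_mod_cast (by omega : 0 < n)
  have hn1 : (1 : ℝ) ≤ n := by exact_mod_cast (by omega : 1 ≤ n)
  have hsum : ∑ t ∈ T, #{i ∈ range K | X i = t} = K := by
    have h1 : #(range K) = ∑ t ∈ T, #{i ∈ range K | X i = t} :=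
      Finset.card_eq_sum_card_fiberwise fun i _ => hX i
    rw [← h1, Finset.card_range]
  have hsumR : ∑ t ∈ T, (#{i ∈ range K | X i = t} : ℝ) = K := by exact_mod_cast hsum
  have hK0 : (0 : ℝ) ≤ K := Nat.cast_nonneg K
  rcases lt_abs.1 h0 with h | h
  · refine ⟨t₀, ht₀, ?_⟩
    have h2 : ε * K / n ≤ ε * K := div_le_self (by positivity) hn1
    have h3 : (1 + ε) * K / n = K / n + ε * K / n := by ring
    rw [h3]
    linarith
  · by_contra hno
    push Not at hno
    have h2 : ∑ t ∈ T.erase t₀, (#{i ∈ range K | X i = t} : ℝ) ≤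
        ∑ _t ∈ T.erase t₀, (1 + ε) * K / n := by
      refine Finset.sum_le_sum fun t ht => ?_
      exact (hno t (Finset.mem_of_mem_erase ht)).le
    rw [Finset.sum_const, Finset.card_erase_of_mem ht₀, hT, nsmul_eq_mul,
      Nat.cast_sub (by omega)] at h2
    have h3 := Finset.add_sum_erase T (fun t => (#{i ∈ range K | X i = t} : ℝ)) ht₀
    rw [hsumR] at h3
    have h4 : ((n : ℝ) - (1 : ℕ)) * ((1 + ε) * K / n) = (1 + ε) * K - (1 + ε) * K / n := by
      push_cast
      field_simp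
    rw [h4] at h2
    have h5 : (1 + ε) * K / n = K / n + ε * K / n := by ring
    rw [h5] at h2
    have h6 : 0 ≤ ε * K / n := by positivity
    nlinarith [h2, h3, h, h6]

/-- all positions but `2 q` are on the `q` arithmetic progressions -/
theorem card_le_progressions {l q K : ℕ} (hl : 1 ≤ l) (hlq : l ≤ q) (P : ℕ → Prop)
    [DecidablePred P] : #{i ∈ range K | P i} ≤
      (∑ r ∈ range q, #{B ∈ range ((K - r) / q) | P (r + (B + 1) * q - l)}) + 2 * q := by
  have hq0 : 0 < q := by omega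
  let T : Finset ℕ := {i ∈ range K | P i}
  let T1 : Finset ℕ := {i ∈ T | q ≤ i + l ∧ i + l ≤ K}
  let T2 : Finset ℕ := {i ∈ T | ¬ (q ≤ i + l ∧ i + l ≤ K)}
  have h1 : #T = #T1 + #T2 := (Finset.card_filter_add_card_filter_not _).symm
  have h2 : #T2 ≤ 2 * q := by
    have hs : T2 ⊆ range q ∪ Finset.Ico (K - l) K := by
      intro i hi
      rw [Finset.mem_filter, Finset.mem_filter, Finset.mem_range] at hi
      rw [Finset.mem_union, Finset.mem_range, Finset.mem_Ico]
      omega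
    refine (Finset.card_le_card hs).trans ((Finset.card_union_le _ _).trans ?_)
    rw [Finset.card_range, Nat.card_Ico]
    omega
  have h3 : #T1 ≤ #((range q).sigma fun r =>
      {B ∈ range ((K - r) / q) | P (r + (B + 1) * q - l)}) := by
    refine Finset.card_le_card_of_injOn
      (fun i => (⟨(i + l) % q, (i + l) / q - 1⟩ : Σ _ : ℕ, ℕ)) ?_ ?_
    · intro i hi
      rw [Finset.mem_coe, Finset.mem_filter, Finset.mem_filter, Finset.mem_range] at hi
      obtain ⟨⟨hiK, hbi⟩, hqi, hiK'⟩ := hi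
      have hdm := Nat.div_add_mod (i + l) q
      have hd1 : 1 ≤ (i + l) / q := (Nat.one_le_div_iff hq0).2 hqi
      have hJ : (i + l) % q + ((i + l) / q - 1 + 1) * q = i + l := by
        rw [Nat.sub_add_cancel hd1, Nat.mul_comm]
        omega
      rw [Finset.mem_coe, Finset.mem_sigma, Finset.mem_filter, Finset.mem_range,
        Finset.mem_range]
      refine ⟨Nat.mod_lt _ hq0, ?_, ?_⟩
      · show (i + l) / q - 1 < (K - (i + l) % q) / q
        have h4 : (i + l) / q ≤ (K - (i + l) % q) / q := by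
          rw [Nat.le_div_iff_mul_le hq0]
          rw [Nat.mul_comm]
          omega
        omega
      · show P ((i + l) % q + ((i + l) / q - 1 + 1) * q - l)
        rw [hJ, Nat.add_sub_cancel]
        exact hbi
    · intro i hi j hj hij
      rw [Finset.mem_coe, Finset.mem_filter, Finset.mem_filter, Finset.mem_range] at hi hj
      have e1 : (i + l) % q = (j + l) % q := congrArg Sigma.fst hij
      have e2 : (i + l) / q - 1 = (j + l) / q - 1 :=
        congrArg (fun p : (Σ _ : ℕ, ℕ) => p.2) hij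
      have hd1 : 1 ≤ (i + l) / q := (Nat.one_le_div_iff hq0).2 hi.2.1
      have hd2 : 1 ≤ (j + l) / q := (Nat.one_le_div_iff hq0).2 hj.2.1
      have e3 : (i + l) / q = (j + l) / q := by omega
      have hi' := Nat.div_add_mod (i + l) q
      have hj' := Nat.div_add_mod (j + l) q
      rw [e1, e3] at hi'
      omega
  rw [Finset.card_sigma] at h3
  show #T ≤ _
  omega

/-- a class that is too frequent is too frequent along a progression -/
theorem exists_progression {l q K n : ℕ} (hl : 1 ≤ l) (hlq : l ≤ q) (hn : 2 ≤ n) {ε : ℝ}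
    (hε : 0 < ε) (hK : 4 * (n : ℝ) * q ≤ ε * K) (P : ℕ → Prop) [DecidablePred P]
    (hP : (1 + ε) * K / n ≤ (#{i ∈ range K | P i} : ℝ)) :
    ∃ r < q, (1 + ε / 2) / n * (((K - r) / q : ℕ) : ℝ) ≤
      (#{B ∈ range ((K - r) / q) | P (r + (B + 1) * q - l)} : ℝ) := by
  have hq0 : 0 < q := by omega
  have hn0 : (0 : ℝ) < n := by exact_mod_cast (by omega : 0 < n)
  by_contra hno
  push Not at hno
  have hup : ∀ r ∈ range q,
      (#{B ∈ range ((K - r) / q) | P (r + (B + 1) * q - l)} : ℝ) <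
      (1 + ε / 2) / n * ((K / q : ℕ) : ℝ) := by
    intro r hr
    have h1 := hno r (Finset.mem_range.1 hr)
    refine h1.trans_le ?_
    have h2 : (((K - r) / q : ℕ) : ℝ) ≤ ((K / q : ℕ) : ℝ) := by
      exact_mod_cast Nat.div_le_div_right (Nat.sub_le K r)
    have h3 : 0 ≤ (1 + ε / 2) / (n : ℝ) := by positivity
    exact mul_le_mul_of_nonneg_left h2 h3
  have h1 : (#{i ∈ range K | P i} : ℝ) ≤ (∑ r ∈ range q,
      (#{B ∈ range ((K - r) / q) | P (r + (B + 1) * q - l)} : ℝ)) + 2 * q := by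
    exact_mod_cast card_le_progressions hl hlq P
  have h2 := Finset.sum_lt_sum_of_nonempty (Finset.nonempty_range_iff.2 hq0.ne') hup
  rw [Finset.sum_const, Finset.card_range, nsmul_eq_mul] at h2
  have h3 : (q : ℝ) * ((K / q : ℕ) : ℝ) ≤ K := by
    exact_mod_cast Nat.mul_div_le K q
  have h4 : 0 ≤ (1 + ε / 2) / (n : ℝ) := by positivity
  have h5 : (q : ℝ) * ((1 + ε / 2) / n * ((K / q : ℕ) : ℝ)) ≤ (1 + ε / 2) / n * K := by
    calc (q : ℝ) * ((1 + ε / 2) / n * ((K / q : ℕ) : ℝ))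
        = (1 + ε / 2) / n * ((q : ℝ) * ((K / q : ℕ) : ℝ)) := by ring
      _ ≤ (1 + ε / 2) / n * K := mul_le_mul_of_nonneg_left h3 h4
  have h6 : (1 + ε / 2) / n * K = (1 + ε / 2) * K / n := by ring
  have h7 : 2 * (q : ℝ) ≤ ε * K / n / 2 := by
    rw [le_div_iff₀ (by norm_num), le_div_iff₀ hn0]
    linarith
  have h8 : (1 + ε) * K / n = (1 + ε / 2) * K / n + ε * K / n / 2 := by ring
  rw [h8] at hP
  linarith

/-- the digit block of a natural number as a floor -/
theorem floor_block {b l J : ℕ} (hb : 2 ≤ b) (hJ : l ≤ J) (a u : ℕ) :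
    Nat.floor (((b ^ l : ℕ) : ℝ) * Int.fract ((a : ℝ) / (b : ℝ) ^ J)) = u ↔
      a / b ^ (J - l) % b ^ l = u := by
  have h := floor_blk hb hJ (a : ℤ) u
  rw [Int.cast_natCast] at h
  rw [h]
  unfold blk
  constructor
  · intro h1
    exact_mod_cast h1
  · intro h1
    exact_mod_cast congrArg (Nat.cast : ℕ → ℤ) h1

theorem stD3 : StD3 := by
  intro b l q K ε hb hl hlq hε hK a a' d hN
  have hb0 : 0 < b := by omega
  set c : ℕ := b ^ l with hc
  have hc2 : 2 ≤ c := by
    calc 2 ≤ b := hb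
      _ = b ^ 1 := (pow_one b).symm
      _ ≤ b ^ l := Nat.pow_le_pow_right hb0 hl
  have hc0 : 0 < c := by omega
  have hcR : ((b : ℝ) ^ l) ^ 3 = ((c ^ 3 : ℕ) : ℝ) := by
    rw [hc]
    push_cast
    rfl
  have hn : 2 ≤ c ^ 3 := by
    calc 2 ≤ c := hc2
      _ = c ^ 1 := (pow_one c).symm
      _ ≤ c ^ 3 := Nat.pow_le_pow_right hc0 (by norm_num)
  let X : ℕ → ℕ × ℕ × ℕ := fun i => (a / b ^ i % c, a' / b ^ i % c, d / b ^ i % c)
  let T : Finset (ℕ × ℕ × ℕ) := range c ×ˢ range c ×ˢ range c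
  have hX : ∀ i, X i ∈ T := by
    intro i
    simp only [X, T, Finset.mem_product, Finset.mem_range]
    exact ⟨Nat.mod_lt _ hc0, Nat.mod_lt _ hc0, Nat.mod_lt _ hc0⟩
  have hT : #T = c ^ 3 := by
    simp only [T, Finset.card_product, Finset.card_range]
    ring
  have hXeq : ∀ i u v w, X i = (u, v, w) ↔
      a / b ^ i % c = u ∧ a' / b ^ i % c = v ∧ d / b ^ i % c = w := by
    intro i u v w
    simp only [X, Prod.mk.injEq]
  obtain ⟨t₀, ht₀, h0⟩ : ∃ t₀ ∈ T,
      ε * K < |(#{i ∈ range K | X i = t₀} : ℝ) - K / ((c ^ 3 : ℕ) : ℝ)| := by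
    by_contra hno
    push Not at hno
    apply hN
    intro u v w hu hv hw
    have h1 := hno (u, v, w) (by
      simp only [T, Finset.mem_product, Finset.mem_range]
      exact ⟨hu, hv, hw⟩)
    rw [hcR]
    simp only [hXeq] at h1
    exact h1
  obtain ⟨⟨u, v, w⟩, ht, hN1⟩ := exists_frequent T X hX hT hn hε ht₀ h0
  simp only [T, Finset.mem_product, Finset.mem_range] at ht
  rw [hcR] at hK
  obtain ⟨r, hr, h1⟩ := exists_progression hl hlq hn hε hK (fun i => X i = (u, v, w)) hN1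
  refine ⟨u, ht.1, v, ht.2.1, w, ht.2.2, r, hr, ?_⟩
  rw [hcR]
  refine h1.trans (le_of_eq ?_)
  rw [Fin.sum_univ_eq_sum_range (fun B => if Nat.floor (((c : ℕ) : ℝ) *
      Int.fract ((a : ℝ) / (b : ℝ) ^ (r + (B + 1) * q))) = u ∧
      Nat.floor (((c : ℕ) : ℝ) *
      Int.fract ((a' : ℝ) / (b : ℝ) ^ (r + (B + 1) * q))) = v ∧
      Nat.floor (((c : ℕ) : ℝ) *
      Int.fract ((d : ℝ) / (b : ℝ) ^ (r + (B + 1) * q))) = w then (1 : ℝ) else 0),
      Finset.sum_boole]
  congr 2
  refine Finset.filter_congr fun B _ => ?_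
  have hJ : l ≤ r + (B + 1) * q := by nlinarith
  rw [hXeq, floor_block hb hJ, floor_block hb hJ, floor_block hb hJ]

end Pool.Agent.Helper66.CH
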